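import Pool.Agent.W221.NS.Stm

/-!
The local regularity theorem from the base case and the induction step (part MD-LOC).
-/

open MeasureTheory Set Metric
open scoped ContDiff

namespace Pool.Agent.W648.MD

open H459R3.NS W221.NS

theorem rr_pos (k : ℕ) : 0 < rr k := by unfold rr; positivity

theorem rr_le_quarter {k : ℕ} (hk : 2 ≤ k) : rr k ≤ 1 / 4 := by
  unfold rr
  calc ((1 : ℝ) / 2) ^ k ≤ (1 / 2) ^ 2 :=
        pow_le_pow_of_le_one (by norm_num) (by norm_num) hk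
    _ = 1 / 4 := by norm_num

theorem rr_cube (k : ℕ) : (2 * rr k) ^ 3 = 8 / 8 ^ k := by
  unfold rr
  have h8 : (8 : ℝ) ^ k = (2 ^ k) ^ 3 := by
    rw [← pow_mul, mul_comm, pow_mul]; norm_num
  rw [h8, one_div, inv_pow, mul_pow, inv_pow]
  norm_num [div_eq_mul_inv]

theorem rr_tendsto (δ : ℝ) (hδ : 0 < δ) : ∃ k : ℕ, 2 ≤ k ∧ rr k < δ := by
  obtain ⟨n, hn⟩ := exists_pow_lt_of_lt_one hδ (by norm_num : (1 / 2 : ℝ) < 1)
  refine ⟨n + 2, by omega, lt_of_le_of_lt ?_ hn⟩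
  unfold rr
  exact pow_le_pow_of_le_one (by norm_num) (by norm_num) (by omega)

theorem nsq_nonneg (v : V → V) (x : V) : 0 ≤ nsq v x := by
  unfold nsq; positivity

theorem gsq_nonneg (v : V → V) (x : V) : 0 ≤ gsq v x := by
  unfold gsq; positivity

theorem continuous_nsq {v : V → V} (hv : ContDiff ℝ ∞ v) : Continuous (nsq v) := by
  unfold nsq
  have h := hv.continuous
  exact continuous_finsetSum _ fun i _ => ((continuous_apply i).comp h).pow 2

theorem continuous_pd {f : V → ℝ} (hf : ContDiff ℝ ∞ f) (j : Fin 3) : Continuous (pd j f) := by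
  unfold pd
  exact (hf.continuous_fderiv (by simp)).clm_apply continuous_const

theorem continuous_gsq {v : V → V} (hv : ContDiff ℝ ∞ v) : Continuous (gsq v) := by
  unfold gsq
  refine continuous_finsetSum _ fun i _ => continuous_finsetSum _ fun j _ => ?_
  have : ContDiff ℝ ∞ (fun y => v y i) := contDiff_pi.1 hv i
  exact (continuous_pd this j).pow 2

theorem intOn_ball {f : V → ℝ} (hf : Continuous f) (a : V) (ρ : ℝ) :
    IntegrableOn f (ball a ρ) :=
  (hf.continuousOn.integrableOn_compact (isCompact_closedBall a ρ)).mono_set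
    ball_subset_closedBall

theorem A2_mono {v : V → V} (hv : ContDiff ℝ ∞ v) {a b : V} {ρ σ : ℝ}
    (h : ball a ρ ⊆ ball b σ) : A2 a ρ v ≤ A2 b σ v := by
  unfold A2
  exact setIntegral_mono_set (intOn_ball (continuous_nsq hv) b σ)
    (Filter.Eventually.of_forall fun x => nsq_nonneg v x) (Filter.Eventually.of_forall h)

theorem B2_mono {v : V → V} (hv : ContDiff ℝ ∞ v) {a b : V} {ρ σ : ℝ}
    (h : ball a ρ ⊆ ball b σ) : B2 a ρ v ≤ B2 b σ v := by
  unfold B2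
  exact setIntegral_mono_set (intOn_ball (continuous_gsq hv) b σ)
    (Filter.Eventually.of_forall fun x => gsq_nonneg v x) (Filter.Eventually.of_forall h)

theorem B2_nonneg (v : V → V) (a : V) (ρ : ℝ) : 0 ≤ B2 a ρ v := by
  unfold B2
  exact integral_nonneg fun x => gsq_nonneg v x

/-- If the integrals over small balls are small then so is the value at the centre. -/
theorem nsq_le_of_A2 {v : V → V} (hv : ContDiff ℝ ∞ v) (a : V) (Λ : ℝ)
    (h : ∀ k : ℕ, 2 ≤ k → A2 a (rr k) v ≤ Λ / 8 ^ k) : nsq v a ≤ Λ / 8 := by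
  by_contra hcon
  push Not at hcon
  obtain ⟨m, hm1, hm2⟩ := exists_between hcon
  have hc : Continuous (nsq v) := continuous_nsq hv
  have hop : IsOpen {x | m < nsq v x} := isOpen_lt continuous_const hc
  obtain ⟨δ, hδ, hball⟩ := Metric.isOpen_iff.1 hop a hm2
  obtain ⟨k, hk, hkδ⟩ := rr_tendsto δ hδ
  have hsub : ball a (rr k) ⊆ {x | m < nsq v x} :=
    (ball_subset_ball hkδ.le).trans hball
  have h1 : m * (2 * rr k) ^ 3 ≤ A2 a (rr k) v := by
    have hvol : (volume (ball a (rr k))).toReal = (2 * rr k) ^ 3 := by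
      rw [Real.volume_pi_ball a (rr_pos k), ENNReal.toReal_ofReal
        (by have := rr_pos k; positivity)]
      simp
    have h2 : ∫ _ in ball a (rr k), m = (2 * rr k) ^ 3 * m := by
      rw [setIntegral_const, smul_eq_mul]
      show (volume (ball a (rr k))).toReal * m = _
      rw [hvol]
    rw [mul_comm, ← h2]
    unfold A2
    refine setIntegral_mono_on ?_ (intOn_ball hc a _) measurableSet_ball
      fun x hx => (hsub hx).le
    exact intOn_ball continuous_const a _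
  have h3 := h k hk
  rw [rr_cube] at h1
  have h8 : (0 : ℝ) < 8 ^ k := by positivity
  have h4 : m * (8 / 8 ^ k) ≤ Λ / 8 ^ k := h1.trans h3
  rw [← mul_div_assoc, div_le_div_iff_of_pos_right h8] at h4
  linarith

theorem smooth_slice {v : ℝ → V → V} {q : ℝ → V → ℝ} {G : ℝ → ℝ} {ε : ℝ} (h : Hyp v q G ε)
    {t : ℝ} (ht : t ∈ Ioo (-1 : ℝ) 0) : ContDiff ℝ ∞ (v t) := by
  obtain ⟨P, hP⟩ := h.2.1 t ht
  exact hP.sv

/-- Monotonicity of the induction hypothesis. -/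
theorem IH_mono {Λ Λ' : ℝ} (h : Λ ≤ Λ') {a : V} {s : ℝ} {v : ℝ → V → V} {k : ℕ}
    (hI : IH Λ a s v k) : IH Λ' a s v k := by
  have h8 : (0 : ℝ) < 8 ^ k := by positivity
  have h1 : Λ / 8 ^ k ≤ Λ' / 8 ^ k := (div_le_div_iff_of_pos_right h8).2 h
  exact ⟨fun t ht1 ht2 => (hI.1 t ht1 ht2).trans h1, hI.2.trans h1⟩

/-- The base case. -/
theorem base {v : ℝ → V → V} {q : ℝ → V → ℝ} {G : ℝ → ℝ} {ε K Λ : ℝ} (h : Hyp v q G ε)
    (hK0 : 0 ≤ K) (hε : 0 ≤ ε)
    (hK : ∀ t ∈ Ioo (-9 / 16 : ℝ) 0, A2 0 (3 / 4) (v t) ≤ K * ε)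
    (hΛ : 8 ^ 5 * ((1 + K) * ε) ≤ Λ) {a : V} (ha : a ∈ ball (0 : V) (1 / 4)) {s : ℝ}
    (hs : s ∈ Ioo (-1 / 16 : ℝ) 0) {k : ℕ} (hk : 2 ≤ k) (hk5 : k ≤ 5) : IH Λ a s v k := by
  have hr := rr_le_quarter hk
  have hr0 := rr_pos k
  have hr2 : rr k ^ 2 ≤ 1 / 16 := by nlinarith
  have ha' : dist a 0 < 1 / 4 := mem_ball.1 ha
  have hsub1 : ball a (rr k) ⊆ ball (0 : V) (3 / 4) := by
    refine ball_subset_ball' ?_
    linarith
  have hsub2 : ball a (rr k) ⊆ ball (0 : V) 2 := by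
    refine ball_subset_ball' ?_
    linarith
  have h8 : (0 : ℝ) < 8 ^ k := by positivity
  have h85 : (8 : ℝ) ^ k ≤ 8 ^ 5 := pow_le_pow_right₀ (by norm_num) hk5
  have hpos : 0 ≤ (1 + K) * ε := by positivity
  have hkey : (1 + K) * ε ≤ Λ / 8 ^ k := by
    rw [le_div_iff₀ h8]
    calc (1 + K) * ε * 8 ^ k ≤ (1 + K) * ε * 8 ^ 5 := mul_le_mul_of_nonneg_left h85 hpos
      _ = 8 ^ 5 * ((1 + K) * ε) := by ring
      _ ≤ Λ := hΛ
  have hs1 := hs.1
  have hs2 := hs.2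
  refine ⟨fun t ht1 ht2 => ?_, ?_⟩
  · have ht : t ∈ Ioo (-9 / 16 : ℝ) 0 := ⟨by linarith, by linarith⟩
    have ht' : t ∈ Ioo (-1 : ℝ) 0 := ⟨by linarith, by linarith⟩
    have h1 := A2_mono (smooth_slice h ht') hsub1
    have h2 := hK t ht
    nlinarith
  · have hsub : Ioc (s - rr k ^ 2) s ⊆ Ioo (-1 : ℝ) 0 := fun t ht =>
      ⟨by have := ht.1; linarith, by have := ht.2; linarith⟩
    have hle : ∀ t ∈ Ioo (-1 : ℝ) 0, B2 a (rr k) (v t) ≤ G t := fun t ht => by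
      obtain ⟨P, hP⟩ := h.2.1 t ht
      exact (B2_mono hP.sv hsub2).trans hP.grad
    have hG0 : ∀ t ∈ Ioo (-1 : ℝ) 0, 0 ≤ G t := fun t ht =>
      (B2_nonneg (v t) a (rr k)).trans (hle t ht)
    have hGi : IntegrableOn G (Ioc (s - rr k ^ 2) s) := h.2.2.1.mono_set hsub
    have h1 : ∫ t in Ioc (s - rr k ^ 2) s, B2 a (rr k) (v t) ≤
        ∫ t in Ioc (s - rr k ^ 2) s, G t := by
      refine integral_mono_of_nonneg (Filter.Eventually.of_forall fun t => B2_nonneg _ _ _)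
        hGi ?_
      refine (ae_restrict_iff' measurableSet_Ioc).2 (Filter.Eventually.of_forall fun t ht => ?_)
      exact hle t (hsub ht)
    have h2 : ∫ t in Ioc (s - rr k ^ 2) s, G t ≤ ∫ t in Ioo (-1 : ℝ) 0, G t := by
      refine setIntegral_mono_set h.2.2.1 ?_ (Filter.Eventually.of_forall hsub)
      exact (ae_restrict_iff' measurableSet_Ioo).2 (Filter.Eventually.of_forall hG0)
    have h3 := h.2.2.2
    nlinarith

theorem t_LOC (hB : S_BASE) (hS : S_STEP) (_hC : S_CT) : S_LOC := by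
  obtain ⟨K, ε₀, hK, hε₀, hB⟩ := hB
  obtain ⟨C, hC, hS⟩ := hS
  set C₁ : ℝ := 8 ^ 5 * ((1 + K) * (1 + C)) with hC₁
  have hC₁0 : 0 < C₁ := by positivity
  set ε : ℝ := min ε₀ (min 1 (1 / (4 * C ^ 2 * C₁))) with hε
  have hε0 : 0 < ε := by
    refine lt_min hε₀ (lt_min one_pos ?_)
    positivity
  have hε1 : ε ≤ ε₀ := min_le_left _ _
  have hε2 : ε ≤ 1 := (min_le_right _ _).trans (min_le_left _ _)
  have hε3 : ε ≤ 1 / (4 * C ^ 2 * C₁) := (min_le_right _ _).trans (min_le_right _ _)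
  set Λ : ℝ := C₁ * ε with hΛ
  have hΛ0 : 0 < Λ := by positivity
  have hΛC : C ^ 2 * Λ ≤ 1 / 4 := by
    rw [le_div_iff₀ (by positivity)] at hε3
    rw [hΛ]
    nlinarith
  have hsq : C * √Λ ≤ 1 / 2 := by
    have h1 : (C * √Λ) ^ 2 ≤ (1 / 2) ^ 2 := by
      rw [mul_pow, Real.sq_sqrt hΛ0.le]
      linarith
    exact le_of_sq_le_sq h1 (by norm_num)
  have hb : 8 ^ 5 * ((1 + K) * ε) ≤ Λ := by
    have h1 : 0 ≤ 8 ^ 5 * ((1 + K) * ε) * C := by positivity
    calc 8 ^ 5 * ((1 + K) * ε) ≤ 8 ^ 5 * ((1 + K) * ε) + 8 ^ 5 * ((1 + K) * ε) * C := by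
          linarith
      _ = Λ := by rw [hΛ, hC₁]; ring
  have hstep : C * ((1 + K) * ε + Λ * √Λ) ≤ Λ := by
    have h1 : C * ((1 + K) * ε) ≤ Λ / 2 := by
      have h2 : 0 ≤ (1 + K) * ε := by positivity
      have h3 : 0 ≤ C * ((1 + K) * ε) := by positivity
      have h4 : Λ = 8 ^ 5 * ((1 + K) * ε) + 8 ^ 5 * (C * ((1 + K) * ε)) := by
        rw [hΛ, hC₁]; ring
      rw [h4]
      norm_num
      nlinarith
    have h2 : C * (Λ * √Λ) ≤ Λ / 2 := by
      calc C * (Λ * √Λ) = Λ * (C * √Λ) := by ring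
        _ ≤ Λ * (1 / 2) := mul_le_mul_of_nonneg_left hsq hΛ0.le
        _ = Λ / 2 := by ring
    rw [mul_add]
    linarith
  refine ⟨ε, √Λ, hε0, Real.sqrt_pos.2 hΛ0, ?_⟩
  intro v q G h s hs a ha i
  have hKε : ∀ t ∈ Ioo (-9 / 16 : ℝ) 0, A2 0 (3 / 4) (v t) ≤ K * ε := hB ε hε0 hε1 v q G h
  have hall : ∀ n k : ℕ, 2 ≤ k → k ≤ n → IH Λ a s v k := by
    intro n
    induction n with
    | zero => intro k hk1 hk2; omega
    | succ n ih =>
      intro k hk1 hk2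
      rcases Nat.lt_or_ge k (n + 1) with hlt | hge
      · exact ih k hk1 (by omega)
      · have hkn : k = n + 1 := by omega
        subst hkn
        rcases Nat.lt_or_ge n 5 with h5 | h5
        · exact base h hK.le hε0.le hKε hb ha hs hk1 (by omega)
        · exact IH_mono hstep (hS ε hε0 hε2 v q G h K hK.le hKε Λ hΛ0.le a ha s hs n h5 ih)
  have hs' : s ∈ Ioo (-1 : ℝ) 0 := ⟨by have := hs.1; linarith, hs.2⟩
  have hv : ContDiff ℝ ∞ (v s) := smooth_slice h hs'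
  have hA : ∀ k : ℕ, 2 ≤ k → A2 a (rr k) (v s) ≤ Λ / 8 ^ k := fun k hk =>
    (hall k k hk le_rfl).1 s (by have := rr_pos k; nlinarith) le_rfl
  have hn := nsq_le_of_A2 hv a Λ hA
  have hi : v s a i ^ 2 ≤ nsq (v s) a := by
    unfold nsq
    exact Finset.single_le_sum (f := fun i => v s a i ^ 2) (fun j _ => sq_nonneg _)
      (Finset.mem_univ i)
  refine Real.abs_le_sqrt ?_
  linarith

end Pool.Agent.W648.MD
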